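import Mathlib

set_option autoImplicit false
set_option linter.unusedSectionVars false

open Filter Topology
open scoped BoundedContinuousFunction

namespace Pool.Agent.J4.H73.BE

/-- The sequence `u` is a (Schauder) basis of `E`: every `x` in `E` has a unique expansion
`x = ∑ a k • u k`, the series converging in norm. -/
def IsBasis (𝕜 : Type*) [RCLike 𝕜] {E : Type*} [NormedAddCommGroup E] [NormedSpace 𝕜 E]
    (u : ℕ → E) : Prop :=
  ∀ x : E, ∃! a : ℕ → 𝕜, Tendsto (fun n => ∑ k ∈ Finset.range n, a k • u k) atTop (𝓝 x)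

variable {𝕜 : Type*} [RCLike 𝕜] {E : Type*} [NormedAddCommGroup E] [NormedSpace 𝕜 E]

/-- the space of the convergent sequences of partial sums -/
def Zsub (u : ℕ → E) : Submodule 𝕜 (ℕ →ᵇ E) where
  carrier := {s | (∃ x, Tendsto s atTop (𝓝 x)) ∧ s 0 = 0 ∧ ∀ n, ∃ c : 𝕜, s (n + 1) - s n = c • u n}
  zero_mem' := ⟨⟨0, tendsto_const_nhds⟩, rfl, fun n => ⟨0, by simp⟩⟩
  add_mem' := by
    rintro s t ⟨⟨x, hx⟩, h1, h2⟩ ⟨⟨y, hy⟩, h3, h4⟩
    refine ⟨⟨x + y, hx.add hy⟩, by simp [h1, h3], fun n => ?_⟩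
    obtain ⟨c, hc⟩ := h2 n
    obtain ⟨d, hd⟩ := h4 n
    refine ⟨c + d, ?_⟩
    rw [add_smul, ← hc, ← hd]
    simp only [BoundedContinuousFunction.coe_add, Pi.add_apply]
    abel
  smul_mem' := by
    rintro r s ⟨⟨x, hx⟩, h1, h2⟩
    refine ⟨⟨r • x, hx.const_smul r⟩, by simp [h1], fun n => ?_⟩
    obtain ⟨c, hc⟩ := h2 n
    refine ⟨r * c, ?_⟩
    rw [mul_smul, ← hc]
    simp only [BoundedContinuousFunction.coe_smul, smul_sub]

theorem mem_Zsub {u : ℕ → E} {s : ℕ →ᵇ E} : s ∈ Zsub (𝕜 := 𝕜) u ↔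
    (∃ x, Tendsto s atTop (𝓝 x)) ∧ s 0 = 0 ∧ ∀ n, ∃ c : 𝕜, s (n + 1) - s n = c • u n := Iff.rfl

theorem isClosed_Zsub [CompleteSpace E] (u : ℕ → E) :
    IsClosed (Zsub (𝕜 := 𝕜) u : Set (ℕ →ᵇ E)) := by
  have h : (Zsub (𝕜 := 𝕜) u : Set (ℕ →ᵇ E)) =
      {s : ℕ →ᵇ E | ∃ x, Tendsto s atTop (𝓝 x)} ∩ ({s : ℕ →ᵇ E | s 0 = 0} ∩
        ⋂ n, {s : ℕ →ᵇ E | s (n + 1) - s n ∈ Submodule.span 𝕜 {u n}}) := by
    ext s
    simp only [SetLike.mem_coe, mem_Zsub, Set.mem_inter_iff, Set.mem_ofPred_eq, Set.mem_iInter,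
      Submodule.mem_span_singleton]
    constructor
    · rintro ⟨h1, h2, h3⟩
      exact ⟨h1, h2, fun n => (h3 n).imp fun c hc => hc.symm⟩
    · rintro ⟨h1, h2, h3⟩
      exact ⟨h1, h2, fun n => (h3 n).imp fun c hc => hc.symm⟩
  rw [h]
  have hev : ∀ n : ℕ, Continuous fun s : ℕ →ᵇ E => s n := fun n =>
    (continuous_apply n).comp BoundedContinuousFunction.continuous_coe
  refine IsClosed.inter ?_ (IsClosed.inter ?_ (isClosed_iInter fun n => ?_))
  · -- convergent sequences are closed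
    rw [← isSeqClosed_iff_isClosed]
    intro S s hS hs
    have hcau : ∀ m, CauchySeq (S m) := fun m => (hS m).choose_spec.cauchySeq
    refine cauchySeq_tendsto_of_complete ?_
    rw [Metric.cauchySeq_iff]
    intro ε hε
    have h3 : ∀ᶠ m in atTop, dist (S m) s < ε / 3 :=
      hs (Metric.ball_mem_nhds _ (by positivity))
    obtain ⟨m, hm⟩ := h3.exists
    obtain ⟨N, hN⟩ := (Metric.cauchySeq_iff.1 (hcau m)) (ε / 3) (by positivity)
    refine ⟨N, fun i hi j hj => ?_⟩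
    have e1 : dist (S m i) (s i) < ε / 3 :=
      (BoundedContinuousFunction.dist_coe_le_dist i).trans_lt hm
    have e2 : dist (S m j) (s j) < ε / 3 :=
      (BoundedContinuousFunction.dist_coe_le_dist j).trans_lt hm
    have e3 := hN i hi j hj
    calc dist (s i) (s j) ≤ dist (s i) (S m i) + dist (S m i) (S m j) + dist (S m j) (s j) :=
          dist_triangle4 _ _ _ _
      _ < ε / 3 + ε / 3 + ε / 3 := by
          rw [dist_comm (s i)]
          linarith
      _ = ε := by ring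
  · exact isClosed_eq (hev 0) continuous_const
  · have : IsClosed ((Submodule.span 𝕜 {u n} : Submodule 𝕜 E) : Set E) :=
      Submodule.closed_of_finiteDimensional _
    exact this.preimage ((hev (n + 1)).sub (hev n))

section
variable [CompleteSpace E]

instance (u : ℕ → E) : CompleteSpace (Zsub (𝕜 := 𝕜) u) :=
  (isClosed_Zsub u).completeSpace_coe

/-- the limit -/
noncomputable def Lmap (u : ℕ → E) : Zsub (𝕜 := 𝕜) u →L[𝕜] E :=
  LinearMap.mkContinuous
    { toFun := fun s => (mem_Zsub.1 s.2).1.choose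
      map_add' := fun s t => by
        have h1 := (mem_Zsub.1 s.2).1.choose_spec
        have h2 := (mem_Zsub.1 t.2).1.choose_spec
        have h3 := (mem_Zsub.1 (s + t).2).1.choose_spec
        exact tendsto_nhds_unique h3 (h1.add h2)
      map_smul' := fun r s => by
        have h1 := (mem_Zsub.1 s.2).1.choose_spec
        have h3 := (mem_Zsub.1 (r • s).2).1.choose_spec
        exact tendsto_nhds_unique h3 (h1.const_smul r) }
    1 (fun s => by
      have h1 := (mem_Zsub.1 s.2).1.choose_spec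
      rw [one_mul]
      refine le_of_tendsto h1.norm (Eventually.of_forall fun n => ?_)
      exact BoundedContinuousFunction.norm_coe_le_norm s.1 n)

theorem Lmap_spec (u : ℕ → E) (s : Zsub (𝕜 := 𝕜) u) :
    Tendsto s.1 atTop (𝓝 (Lmap u s)) := (mem_Zsub.1 s.2).1.choose_spec

theorem Zsub_eq_sum (u : ℕ → E) (s : Zsub (𝕜 := 𝕜) u) :
    ∃ a : ℕ → 𝕜, ∀ n, s.1 n = ∑ k ∈ Finset.range n, a k • u k := by
  obtain ⟨-, h0, h⟩ := mem_Zsub.1 s.2
  choose a ha using h
  refine ⟨a, fun n => ?_⟩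
  induction n with
  | zero => simpa using h0
  | succ n ih =>
    rw [Finset.sum_range_succ, ← ih, ← ha n]
    abel

/-- the partial sums as an element of `Zsub` -/
noncomputable def mkZ (u : ℕ → E) (a : ℕ → 𝕜) (x : E)
    (h : Tendsto (fun n => ∑ k ∈ Finset.range n, a k • u k) atTop (𝓝 x)) :
    Zsub (𝕜 := 𝕜) u :=
  ⟨BoundedContinuousFunction.ofNormedAddCommGroup (fun n => ∑ k ∈ Finset.range n, a k • u k)
      continuous_of_discreteTopology
      (isBounded_iff_forall_norm_le.1 (Metric.isBounded_range_of_tendsto _ h)).choose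
      (fun n => (isBounded_iff_forall_norm_le.1
        (Metric.isBounded_range_of_tendsto _ h)).choose_spec _ ⟨n, rfl⟩), by
    refine mem_Zsub.2 ⟨⟨x, h⟩, ?_, fun n => ⟨a n, ?_⟩⟩
    · simp
    · simp [Finset.sum_range_succ]⟩

theorem mkZ_apply (u : ℕ → E) (a : ℕ → 𝕜) (x : E)
    (h : Tendsto (fun n => ∑ k ∈ Finset.range n, a k • u k) atTop (𝓝 x)) (n : ℕ) :
    (mkZ u a x h).1 n = ∑ k ∈ Finset.range n, a k • u k := rfl

theorem Lmap_mkZ (u : ℕ → E) (a : ℕ → 𝕜) (x : E)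
    (h : Tendsto (fun n => ∑ k ∈ Finset.range n, a k • u k) atTop (𝓝 x)) :
    Lmap u (mkZ u a x h) = x := tendsto_nhds_unique (Lmap_spec u (mkZ u a x h)) h

/-- **Banach.** The partial sum projections of a basis are uniformly bounded. -/
theorem exists_proj {u : ℕ → E} (hu : IsBasis 𝕜 u) :
    ∃ C : ℝ, ∀ N : ℕ, ∃ P : E →L[𝕜] E, ‖P‖ ≤ C ∧ ∀ k, P (u k) = if k < N then u k else 0 := by
  have hinj : Function.Injective (Lmap (𝕜 := 𝕜) u) := by
    rw [injective_iff_map_eq_zero]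
    intro s hs
    obtain ⟨a, ha⟩ := Zsub_eq_sum u s
    have h1 := Lmap_spec u s
    rw [hs] at h1
    have h2 : Tendsto (fun n => ∑ k ∈ Finset.range n, a k • u k) atTop (𝓝 0) := by
      refine h1.congr fun n => ha n
    have h3 : Tendsto (fun n => ∑ k ∈ Finset.range n, (0 : ℕ → 𝕜) k • u k) atTop (𝓝 0) := by
      simp
    have h4 : a = 0 := (hu 0).unique h2 h3
    apply Subtype.ext
    ext n
    rw [ha n, h4]
    simp
  have hsurj : Function.Surjective (Lmap (𝕜 := 𝕜) u) := by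
    intro x
    obtain ⟨a, ha, -⟩ := hu x
    exact ⟨mkZ u a x ha, Lmap_mkZ u a x ha⟩
  let e : Zsub (𝕜 := 𝕜) u ≃L[𝕜] E :=
    ContinuousLinearEquiv.ofBijective (Lmap u) (LinearMap.ker_eq_bot.2 hinj)
      (LinearMap.range_eq_top.2 hsurj)
  have he : ∀ s, e s = Lmap u s := fun s => rfl
  refine ⟨‖(e.symm : E →L[𝕜] Zsub (𝕜 := 𝕜) u)‖, fun N => ?_⟩
  let Q : E →ₗ[𝕜] E :=
    { toFun := fun x => (e.symm x).1 N
      map_add' := fun x y => by simp
      map_smul' := fun r x => by simp }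
  have hQ : ∀ x, ‖Q x‖ ≤ ‖(e.symm : E →L[𝕜] Zsub (𝕜 := 𝕜) u)‖ * ‖x‖ := by
    intro x
    calc ‖Q x‖ ≤ ‖(e.symm x).1‖ := BoundedContinuousFunction.norm_coe_le_norm _ _
      _ = ‖e.symm x‖ := rfl
      _ ≤ _ := ContinuousLinearMap.le_opNorm (e.symm : E →L[𝕜] Zsub (𝕜 := 𝕜) u) x
  refine ⟨Q.mkContinuous _ hQ, ?_, fun k => ?_⟩
  · exact LinearMap.mkContinuous_norm_le Q (by positivity) hQ
  classical
  let a : ℕ → 𝕜 := Pi.single k 1
  have hsum : ∀ n, ∑ j ∈ Finset.range n, a j • u j = if k < n then u k else 0 := by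
    intro n
    have : ∀ j ∈ Finset.range n, a j • u j = if k = j then u k else 0 := by
      intro j _
      by_cases h : k = j
      · subst h; simp [a]
      · simp [a, h, Ne.symm h]
    rw [Finset.sum_congr rfl this, Finset.sum_ite_eq]
    simp
  have hlim : Tendsto (fun n => ∑ j ∈ Finset.range n, a j • u j) atTop (𝓝 (u k)) := by
    refine tendsto_const_nhds.congr' ?_
    filter_upwards [eventually_gt_atTop k] with n hn
    rw [hsum, if_pos hn]
  have h1 : e.symm (u k) = mkZ u a (u k) hlim := by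
    rw [ContinuousLinearEquiv.symm_apply_eq, he, Lmap_mkZ]
  show (e.symm (u k)).1 N = _
  rw [h1, mkZ_apply, hsum]

end

end Pool.Agent.J4.H73.BE
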