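import Mathlib

set_option autoImplicit false
set_option linter.unusedSectionVars false

open Finset

namespace Pool.Agent.J4.H73.BE

/-- signs -/
def sg (b : Bool) : ℝ := if b then 1 else -1

lemma sg_sq (b : Bool) : sg b * sg b = 1 := by cases b <;> simp [sg]

lemma sg_not (b : Bool) : sg (!b) = - sg b := by cases b <;> simp [sg]

lemma abs_sg (b : Bool) : |sg b| = 1 := by cases b <;> simp [sg]

section
variable {𝕜 : Type*} [RCLike 𝕜] {H : Type*} [NormedAddCommGroup H] [InnerProductSpace 𝕜 H]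
variable {ι : Type*} [Fintype ι] [DecidableEq ι]

/-- Rademacher sums -/
noncomputable def rad (s : Finset ι) (a : ι → H) (w : ι → Bool) : H :=
  ∑ i ∈ s, ((sg (w i) : ℝ) : 𝕜) • a i

/-- flipping the coordinate `j` -/
def flip (j : ι) : (ι → Bool) ≃ (ι → Bool) where
  toFun w := Function.update w j (!w j)
  invFun w := Function.update w j (!w j)
  left_inv w := by
    funext i
    by_cases h : i = j
    · subst h; simp
    · simp [h]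
  right_inv w := by
    funext i
    by_cases h : i = j
    · subst h; simp
    · simp [h]

lemma flip_self (j : ι) (w : ι → Bool) : flip j w j = !w j := by simp [flip]

lemma flip_ne {j i : ι} (h : i ≠ j) (w : ι → Bool) : flip j w i = w i := by simp [flip, h]

lemma rad_flip {s : Finset ι} {j : ι} (hj : j ∉ s) (a : ι → H) (w : ι → Bool) :
    rad (𝕜 := 𝕜) s a (flip j w) = rad (𝕜 := 𝕜) s a w := by
  unfold rad
  refine sum_congr rfl fun i hi => ?_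
  have hij : i ≠ j := by rintro rfl; exact hj hi
  rw [flip_ne hij]

lemma sum_flip (j : ι) (F : (ι → Bool) → ℝ) : ∑ w, F (flip j w) = ∑ w, F w :=
  Equiv.sum_comp (flip j) F

lemma two_pt (g a : H) (b : Bool) :
    ‖((sg b : ℝ) : 𝕜) • a + g‖ ^ 2 + ‖((sg (!b) : ℝ) : 𝕜) • a + g‖ ^ 2 =
      2 * (‖g‖ ^ 2 + ‖a‖ ^ 2) := by
  have h := parallelogram_law_with_norm 𝕜 g (((sg b : ℝ) : 𝕜) • a)
  have h1 : ‖((sg b : ℝ) : 𝕜) • a‖ = ‖a‖ := by
    rw [norm_smul, RCLike.norm_ofReal, abs_sg, one_mul]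
  have h2 : ((sg (!b) : ℝ) : 𝕜) • a + g = g - ((sg b : ℝ) : 𝕜) • a := by
    rw [sg_not]
    push_cast
    rw [neg_smul]
    abel
  rw [h2, add_comm (((sg b : ℝ) : 𝕜) • a) g]
  rw [h1] at h
  nlinarith [h]

lemma four_pt (g a : H) (b : Bool) :
    ‖((sg b : ℝ) : 𝕜) • a + g‖ ^ 4 + ‖((sg (!b) : ℝ) : 𝕜) • a + g‖ ^ 4 ≤
      2 * (‖g‖ ^ 2 + ‖a‖ ^ 2) ^ 2 + 8 * ‖g‖ ^ 2 * ‖a‖ ^ 2 := by
  set c : H := ((sg b : ℝ) : 𝕜) • a with hc
  have h1 : ‖c‖ = ‖a‖ := by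
    rw [hc, norm_smul, RCLike.norm_ofReal, abs_sg, one_mul]
  have h2 : ((sg (!b) : ℝ) : 𝕜) • a + g = g - c := by
    rw [sg_not, hc]
    push_cast
    rw [neg_smul]
    abel
  rw [h2, add_comm c g, ← h1]
  have e1 := @norm_add_sq 𝕜 H _ _ _ g c
  have e2 := @norm_sub_sq 𝕜 H _ _ _ g c
  have e3 : |RCLike.re (inner 𝕜 g c)| ≤ ‖g‖ * ‖c‖ :=
    (RCLike.abs_re_le_norm _).trans (norm_inner_le_norm g c)
  have e4 : (RCLike.re (inner 𝕜 g c)) ^ 2 ≤ ‖g‖ ^ 2 * ‖c‖ ^ 2 := by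
    rw [← mul_pow]
    exact sq_le_sq' (by linarith [neg_abs_le (RCLike.re (inner 𝕜 g c))])
      (by linarith [le_abs_self (RCLike.re (inner 𝕜 g c))])
  have e5 : ‖g + c‖ ^ 4 = (‖g + c‖ ^ 2) ^ 2 := by ring
  have e6 : ‖g - c‖ ^ 4 = (‖g - c‖ ^ 2) ^ 2 := by ring
  rw [e5, e6, e1, e2]
  nlinarith [e4]

lemma rad_insert {s : Finset ι} {j : ι} (hj : j ∉ s) (a : ι → H) (w : ι → Bool) :
    rad (𝕜 := 𝕜) (insert j s) a w = ((sg (w j) : ℝ) : 𝕜) • a j + rad (𝕜 := 𝕜) s a w := by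
  unfold rad
  rw [sum_insert hj]

lemma rad_sq (s : Finset ι) (a : ι → H) :
    ∑ w, ‖rad (𝕜 := 𝕜) s a w‖ ^ 2 = (Fintype.card (ι → Bool) : ℝ) * ∑ i ∈ s, ‖a i‖ ^ 2 := by
  induction s using Finset.induction_on with
  | empty => simp [rad]
  | insert j s hj ih =>
    have h1 : 2 * ∑ w, ‖rad (𝕜 := 𝕜) (insert j s) a w‖ ^ 2 =
        ∑ w, 2 * (‖rad (𝕜 := 𝕜) s a w‖ ^ 2 + ‖a j‖ ^ 2) := by
      rw [two_mul]
      nth_rw 2 [← sum_flip j]
      rw [← sum_add_distrib]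
      refine sum_congr rfl fun w _ => ?_
      rw [rad_insert hj, rad_insert hj, rad_flip hj, flip_self]
      exact two_pt _ _ _
    rw [← mul_sum, sum_add_distrib, ih, sum_const, card_univ, nsmul_eq_mul] at h1
    rw [sum_insert hj]
    linarith

lemma rad_four (s : Finset ι) (a : ι → H) :
    ∑ w, ‖rad (𝕜 := 𝕜) s a w‖ ^ 4 ≤
      3 * (Fintype.card (ι → Bool) : ℝ) * (∑ i ∈ s, ‖a i‖ ^ 2) ^ 2 := by
  induction s using Finset.induction_on with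
  | empty => simp [rad]
  | insert j s hj ih =>
    have h1 : 2 * ∑ w, ‖rad (𝕜 := 𝕜) (insert j s) a w‖ ^ 4 ≤
        ∑ w, (2 * (‖rad (𝕜 := 𝕜) s a w‖ ^ 4 + 6 * ‖a j‖ ^ 2 * ‖rad (𝕜 := 𝕜) s a w‖ ^ 2 +
          ‖a j‖ ^ 4)) := by
      rw [two_mul]
      nth_rw 2 [← sum_flip j]
      rw [← sum_add_distrib]
      refine sum_le_sum fun w _ => ?_
      rw [rad_insert hj, rad_insert hj, rad_flip hj, flip_self]
      refine (four_pt _ _ _).trans (le_of_eq ?_)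
      ring
    rw [← mul_sum, sum_add_distrib, sum_add_distrib, ← mul_sum, rad_sq, sum_const, card_univ,
      nsmul_eq_mul] at h1
    rw [sum_insert hj]
    have hN : (0 : ℝ) ≤ Fintype.card (ι → Bool) := by positivity
    have hp : 0 ≤ (Fintype.card (ι → Bool) : ℝ) * ‖a j‖ ^ 4 := by positivity
    nlinarith [h1, ih]

lemma pt (s t : ℝ) (hs : 0 ≤ s) (ht : 0 ≤ t) :
    s ^ 2 * t ^ 2 - t ^ 4 / 9 ≤ 4 / 3 * s ^ 3 * t := by
  have h1 : 0 ≤ (t - 7 / 4 * s) ^ 2 * (t + 7 / 2 * s) := by positivity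
  have h2 : 0 ≤ s ^ 2 * t := by positivity
  have h3 : 0 ≤ s ^ 3 := by positivity
  have h4 : 0 ≤ t ^ 3 - 9 * s ^ 2 * t + 12 * s ^ 3 := by nlinarith
  nlinarith [mul_nonneg ht h4]

/-- Khintchine's inequality in a Hilbert space -/
theorem khintchine (s : Finset ι) (a : ι → H) :
    (Fintype.card (ι → Bool) : ℝ) / 2 * √(∑ i ∈ s, ‖a i‖ ^ 2) ≤
      ∑ w, ‖rad (𝕜 := 𝕜) s a w‖ := by
  set S : ℝ := ∑ i ∈ s, ‖a i‖ ^ 2 with hS
  set N : ℝ := (Fintype.card (ι → Bool) : ℝ) with hN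
  have hS0 : 0 ≤ S := sum_nonneg fun _ _ => by positivity
  set r : ℝ := √S with hr
  have hr0 : 0 ≤ r := Real.sqrt_nonneg _
  have hrS : r ^ 2 = S := Real.sq_sqrt hS0
  rcases eq_or_lt_of_le hr0 with h | h
  · rw [← h, mul_zero]
    exact sum_nonneg fun _ _ => norm_nonneg _
  · have h1 : ∑ w, (r ^ 2 * ‖rad (𝕜 := 𝕜) s a w‖ ^ 2 - ‖rad (𝕜 := 𝕜) s a w‖ ^ 4 / 9) ≤
        ∑ w, 4 / 3 * r ^ 3 * ‖rad (𝕜 := 𝕜) s a w‖ :=
      sum_le_sum fun w _ => pt r _ hr0 (norm_nonneg _)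
    rw [sum_sub_distrib, ← mul_sum, ← mul_sum, ← sum_div, rad_sq, ← hS, ← hN] at h1
    have h2 := rad_four (𝕜 := 𝕜) s a
    rw [← hS, ← hN, ← hrS] at h2
    rw [← hrS] at h1
    have h3 : 2 / 3 * N * r ^ 4 ≤ 4 / 3 * r ^ 3 * ∑ w, ‖rad (𝕜 := 𝕜) s a w‖ := by
      nlinarith
    have h4 : 0 < r ^ 3 := by positivity
    have h5 : r ^ 3 * (N / 2 * r) ≤ r ^ 3 * ∑ w, ‖rad (𝕜 := 𝕜) s a w‖ := by nlinarith
    exact le_of_mul_le_mul_left h5 h4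

end

end Pool.Agent.J4.H73.BE
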