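import Mathlib
import Pool.Agent.J4.H73.BE.Khin

set_option autoImplicit false
set_option linter.unusedSectionVars false

open Finset

namespace Pool.Agent.J4.H73.BE

/-- the index set of the Sylvester matrix of order `2 ^ m` -/
abbrev K (m : ℕ) : Type := Fin m → Bool

/-- the `2 × 2` Hadamard matrix -/
def hh (a b : Bool) : ℝ := if a && b then -1 else 1

/-- the Sylvester matrix -/
def Syl {m : ℕ} (s t : K m) : ℝ := ∏ i, hh (s i) (t i)

lemma hh_cases (a b : Bool) : hh a b = 1 ∨ hh a b = -1 := by cases a <;> cases b <;> simp [hh]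

lemma Syl_cases {m : ℕ} (s t : K m) : Syl s t = 1 ∨ Syl s t = -1 := by
  unfold Syl
  induction (univ : Finset (Fin m)) using Finset.induction_on with
  | empty => simp
  | insert j u hj ih =>
    rw [prod_insert hj]
    rcases hh_cases (s j) (t j) with h | h <;> rcases ih with h' | h' <;> rw [h, h'] <;> norm_num

lemma sum_hh (a a' : Bool) : ∑ b, hh a b * hh a' b = if a = a' then 2 else 0 := by
  cases a <;> cases a' <;> simp [hh] <;> norm_num

lemma Syl_ortho {m : ℕ} (s s' : K m) :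
    ∑ t, Syl s t * Syl s' t = if s = s' then (2 : ℝ) ^ m else 0 := by
  have h1 : ∑ t : K m, Syl s t * Syl s' t = ∏ i, ∑ b, hh (s i) b * hh (s' i) b := by
    rw [Finset.prod_univ_sum]
    rw [Fintype.piFinset_univ]
    refine sum_congr rfl fun t _ => ?_
    rw [Syl, Syl, ← prod_mul_distrib]
  rw [h1]
  simp_rw [sum_hh]
  split_ifs with h
  · subst h
    simp
  · obtain ⟨i, hi⟩ := Function.ne_iff.1 h
    exact prod_eq_zero (mem_univ i) (if_neg hi)

lemma Syl_zero {m : ℕ} (t : K m) : Syl (fun _ => false) t = 1 := by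
  unfold Syl
  exact prod_eq_one fun i _ => by simp [hh]

lemma Syl_comm {m : ℕ} (s t : K m) : Syl s t = Syl t s := by
  unfold Syl
  refine prod_congr rfl fun i _ => ?_
  unfold hh
  rw [Bool.and_comm]

lemma Syl_sum {m : ℕ} : ∑ s : K m, ∑ t : K m, Syl s t = (2 : ℝ) ^ m := by
  have h : ∀ s : K m, ∑ t : K m, Syl s t = if s = (fun _ => false) then (2 : ℝ) ^ m else 0 := by
    intro s
    rw [← Syl_ortho]
    exact sum_congr rfl fun t _ => by rw [Syl_zero, mul_one]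
  simp_rw [h]
  simp

lemma card_K (m : ℕ) : (Fintype.card (K m) : ℝ) = 2 ^ m := by simp [K]

/-- bilinear bound -/
lemma Syl_bil {m : ℕ} (e d : K m → ℝ) (he : ∀ s, e s * e s = 1) (hd : ∀ s, d s * d s = 1) :
    (∑ s, ∑ t, Syl s t * (e s * d t)) ^ 2 ≤ ((2 : ℝ) ^ m) ^ 3 := by
  have h1 : ∑ s, ∑ t, Syl s t * (e s * d t) = ∑ t, d t * ∑ s, Syl s t * e s := by
    rw [sum_comm]
    refine sum_congr rfl fun t _ => ?_
    rw [mul_sum]
    exact sum_congr rfl fun s _ => by ring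
  rw [h1]
  have h2 : ∑ t, (∑ s, Syl s t * e s) ^ 2 = ((2 : ℝ) ^ m) ^ 2 := by
    have h3 : ∀ t, (∑ s, Syl s t * e s) ^ 2 =
        ∑ s, ∑ s', (e s * e s') * (Syl s t * Syl s' t) := by
      intro t
      rw [sq, sum_mul_sum]
      refine sum_congr rfl fun s _ => sum_congr rfl fun s' _ => by ring
    simp_rw [h3]
    rw [sum_comm]
    have h4 : ∀ s, ∑ t, ∑ s', (e s * e s') * (Syl s t * Syl s' t) = 2 ^ m := by
      intro s
      rw [sum_comm]
      simp_rw [← mul_sum, Syl_ortho]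
      simp [he s]
    simp_rw [h4]
    rw [sum_const, card_univ, nsmul_eq_mul, card_K]
    ring
  calc (∑ t, d t * ∑ s, Syl s t * e s) ^ 2 ≤
        (∑ t, d t ^ 2) * ∑ t, (∑ s, Syl s t * e s) ^ 2 := sum_mul_sq_le_sq_mul_sq _ _ _
    _ = ((2 : ℝ) ^ m) ^ 3 := by
        rw [h2]
        have : ∑ t, d t ^ 2 = (2 : ℝ) ^ m := by
          simp_rw [sq, hd]
          rw [sum_const, card_univ, nsmul_eq_mul, card_K, mul_one]
        rw [this]
        ring

/-- the number of the entries `1` -/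
lemma Syl_card {m : ℕ} :
    ((2 : ℝ) ^ m) ^ 2 / 2 ≤ ∑ s : K m, ∑ t : K m, if Syl s t = 1 then Syl s t else 0 := by
  have h : ∀ s t : K m, (if Syl s t = 1 then Syl s t else 0) = (1 + Syl s t) / 2 := by
    intro s t
    rcases Syl_cases s t with h | h
    · rw [h]; norm_num
    · rw [h]; norm_num
  simp_rw [h, ← sum_div, sum_add_distrib, Syl_sum]
  simp only [sum_const, card_univ, nsmul_eq_mul, card_K]
  have : (0 : ℝ) < 2 ^ m := by positivity
  linarith [sq ((2 : ℝ) ^ m)]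

/-! ### functions on the group -/

/-- pairs of sign vectors -/
abbrev G (m : ℕ) : Type := (K m → Bool) × (K m → Bool)

/-- the function `r_s ⊗ r_t` -/
def chi {m : ℕ} (p : K m × K m) (g : G m) : ℝ := sg (g.1 p.1) * sg (g.2 p.2)

lemma chi_sq {m : ℕ} (p : K m × K m) (g : G m) : chi p g * chi p g = 1 := by
  unfold chi
  have h1 := sg_sq (g.1 p.1)
  have h2 := sg_sq (g.2 p.2)
  calc _ = (sg (g.1 p.1) * sg (g.1 p.1)) * (sg (g.2 p.2) * sg (g.2 p.2)) := by ring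
    _ = 1 := by rw [h1, h2, one_mul]

lemma kernel_bound {m : ℕ} (g g' : G m) :
    (∑ p : K m × K m, Syl p.1 p.2 * (chi p g * chi p g')) ^ 2 ≤ ((2 : ℝ) ^ m) ^ 3 := by
  have h := Syl_bil (fun s => sg (g.1 s) * sg (g'.1 s)) (fun t => sg (g.2 t) * sg (g'.2 t))
    (fun s => by
      calc _ = (sg (g.1 s) * sg (g.1 s)) * (sg (g'.1 s) * sg (g'.1 s)) := by ring
        _ = 1 := by rw [sg_sq, sg_sq, one_mul])
    (fun t => by
      calc _ = (sg (g.2 t) * sg (g.2 t)) * (sg (g'.2 t) * sg (g'.2 t)) := by ring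
        _ = 1 := by rw [sg_sq, sg_sq, one_mul])
  rw [Fintype.sum_prod_type]
  convert h using 3
  refine sum_congr rfl fun t _ => ?_
  simp only [chi]
  ring

section
variable {𝕜 : Type*} [RCLike 𝕜]

/-- the function with coefficients `c` -/
noncomputable def fn {m : ℕ} (c : K m × K m → 𝕜) (g : G m) : 𝕜 :=
  ∑ p, ((chi p g : ℝ) : 𝕜) * c p

/-- the column `t` as a vector -/
noncomputable def col {m : ℕ} (c : K m × K m → 𝕜) (t : K m) : EuclideanSpace 𝕜 (K m) :=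
  WithLp.toLp 2 fun s => c (s, t)

lemma fn_eq {m : ℕ} (c : K m × K m → 𝕜) (w w' : K m → Bool) :
    fn c (w, w') = rad (𝕜 := 𝕜) univ
      (fun s => (rad (𝕜 := 𝕜) univ (fun t => col c t) w' : EuclideanSpace 𝕜 (K m)) s) w := by
  unfold fn rad
  rw [Fintype.sum_prod_type]
  refine sum_congr rfl fun s _ => ?_
  simp only [WithLp.ofLp_sum, Finset.sum_apply, smul_eq_mul, mul_sum]
  refine sum_congr rfl fun t _ => ?_
  simp only [chi, col]
  simp
  rw [Algebra.smul_def]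
  ring

lemma l2sum {m : ℕ} (c : K m × K m → 𝕜) :
    ∑ t, ‖col c t‖ ^ 2 = ∑ p, ‖c p‖ ^ 2 := by
  rw [Fintype.sum_prod_type, sum_comm]
  refine sum_congr rfl fun t _ => ?_
  rw [EuclideanSpace.norm_sq_eq]
  rfl

lemma fn_lower {m : ℕ} (c : K m × K m → 𝕜) :
    (Fintype.card (G m) : ℝ) / 4 * √(∑ p, ‖c p‖ ^ 2) ≤ ∑ g, ‖fn c g‖ := by
  rw [Fintype.sum_prod_type (f := fun g : G m => ‖fn c g‖), sum_comm]
  simp_rw [fn_eq]
  have h1 : ∀ w' : K m → Bool, (Fintype.card (K m → Bool) : ℝ) / 2 *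
      ‖rad (𝕜 := 𝕜) univ (fun t => col c t) w'‖ ≤ ∑ w : K m → Bool, ‖rad (𝕜 := 𝕜) univ
      (fun s => (rad (𝕜 := 𝕜) univ (fun t => col c t) w' : EuclideanSpace 𝕜 (K m)) s) w‖ := by
    intro w'
    refine le_trans (le_of_eq ?_) (khintchine (𝕜 := 𝕜) univ _)
    rw [EuclideanSpace.norm_eq]
  refine le_trans ?_ (sum_le_sum fun w' _ => h1 w')
  rw [← mul_sum]
  have h2 := khintchine (𝕜 := 𝕜) univ (fun t => col c t)
  rw [l2sum] at h2
  have h3 : (Fintype.card (G m) : ℝ) =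
      (Fintype.card (K m → Bool) : ℝ) * (Fintype.card (K m → Bool) : ℝ) := by
    rw [Fintype.card_prod]
    push_cast
    ring
  rw [h3]
  have h4 : (0 : ℝ) ≤ Fintype.card (K m → Bool) := by positivity
  calc _ = (Fintype.card (K m → Bool) : ℝ) / 2 *
        ((Fintype.card (K m → Bool) : ℝ) / 2 * √(∑ p, ‖c p‖ ^ 2)) := by ring
    _ ≤ _ := by gcongr

lemma fn_sq {m : ℕ} (c : K m × K m → 𝕜) :
    ∑ g, ‖fn c g‖ ^ 2 = (Fintype.card (G m) : ℝ) * ∑ p, ‖c p‖ ^ 2 := by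
  rw [Fintype.sum_prod_type (f := fun g : G m => ‖fn c g‖ ^ 2), sum_comm]
  simp_rw [fn_eq]
  have h1 : ∀ w' : K m → Bool, ∑ w : K m → Bool, ‖rad (𝕜 := 𝕜) univ
      (fun s => (rad (𝕜 := 𝕜) univ (fun t => col c t) w' : EuclideanSpace 𝕜 (K m)) s) w‖ ^ 2 =
      (Fintype.card (K m → Bool) : ℝ) * ‖rad (𝕜 := 𝕜) univ (fun t => col c t) w'‖ ^ 2 := by
    intro w'
    rw [rad_sq, EuclideanSpace.norm_sq_eq]
  simp_rw [h1]
  rw [← mul_sum, rad_sq, l2sum, Fintype.card_prod]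
  push_cast
  ring

lemma fn_upper {m : ℕ} (c : K m × K m → 𝕜) :
    ∑ g, ‖fn c g‖ ≤ (Fintype.card (G m) : ℝ) * √(∑ p, ‖c p‖ ^ 2) := by
  have h1 : (∑ g : G m, ‖fn c g‖) ^ 2 ≤ (Fintype.card (G m) : ℝ) * ∑ g, ‖fn c g‖ ^ 2 := by
    have := @sq_sum_le_card_mul_sum_sq (G m) ℝ _ _ _ _ univ (fun g => ‖fn c g‖)
    rwa [card_univ] at this
  rw [fn_sq] at h1
  have h2 : 0 ≤ (Fintype.card (G m) : ℝ) := by positivity
  refine abs_le_of_sq_le_sq' ?_ (by positivity) |>.2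
  refine h1.trans (le_of_eq ?_)
  rw [mul_pow, Real.sq_sqrt (sum_nonneg fun _ _ => by positivity)]
  ring

/-- unconditionality in a block -/
theorem block_ineq {m : ℕ} (c c' : K m × K m → 𝕜) (h : ∀ p, ‖c p‖ ≤ ‖c' p‖) :
    ∑ g, ‖fn c g‖ ≤ 4 * ∑ g, ‖fn c' g‖ := by
  have h1 := fn_upper c
  have h2 := fn_lower c'
  have h3 : √(∑ p, ‖c p‖ ^ 2) ≤ √(∑ p, ‖c' p‖ ^ 2) := by
    apply Real.sqrt_le_sqrt
    exact sum_le_sum fun p _ => by gcongr; exact h p
  have h4 : 0 ≤ (Fintype.card (G m) : ℝ) := by positivity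
  nlinarith [mul_le_mul_of_nonneg_left h3 h4]

end

end Pool.Agent.J4.H73.BE
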