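import Mathlib
import Pool.Agent.J4.H73.BE.Syl
import Pool.Agent.J4.H73.BE.Proj

set_option autoImplicit false
set_option linter.unusedSectionVars false

open Finset Filter Topology
open scoped ENNReal

namespace Pool.Agent.J4.H73.BE

/-- the Banach space `ℓ₁` -/
abbrev L1 (𝕜 : Type) [RCLike 𝕜] : Type := lp (fun _ : ℕ => 𝕜) 1

/-- index set of the basic sequence -/
abbrev T : Type := Σ m : ℕ, K m × K m

/-- index set of the coordinates -/
abbrev I : Type := Σ m : ℕ, G m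

instance : Infinite I :=
  Infinite.of_injective (fun m : ℕ => (⟨m, (fun _ => true, fun _ => true)⟩ : I))
    (fun _ _ h => congrArg Sigma.fst h)

instance : Infinite T :=
  Infinite.of_injective (fun m : ℕ => (⟨m, (fun _ => true, fun _ => true)⟩ : T))
    (fun _ _ h => congrArg Sigma.fst h)

/-- an enumeration of the coordinates -/
noncomputable def enc : I ≃ ℕ := Classical.choice (nonempty_equiv_of_countable)

section
variable {𝕜 : Type} [RCLike 𝕜]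

variable (𝕜) in
/-- the vectors of the basic sequence -/
noncomputable def z (t : T) : L1 𝕜 :=
  ∑ g : G t.1, ((chi t.2 g / Fintype.card (G t.1) : ℝ) : 𝕜) • lp.single 1 (enc ⟨t.1, g⟩) (1 : 𝕜)

lemma z_coord (m : ℕ) (p : K m × K m) (i : I) :
    (z 𝕜 ⟨m, p⟩ : ℕ → 𝕜) (enc i) = ∑ g : G m, ((chi p g / Fintype.card (G m) : ℝ) : 𝕜) *
      (if i = ⟨m, g⟩ then 1 else 0) := by
  unfold z
  rw [lp.coeFn_sum, Finset.sum_apply]
  refine sum_congr rfl fun g _ => ?_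
  rw [lp.coeFn_smul, Pi.smul_apply, smul_eq_mul, lp.single_apply, Pi.single_apply]
  simp only [EmbeddingLike.apply_eq_iff_eq]

lemma z_same (m : ℕ) (p : K m × K m) (g : G m) :
    (z 𝕜 ⟨m, p⟩ : ℕ → 𝕜) (enc ⟨m, g⟩) = ((chi p g / Fintype.card (G m) : ℝ) : 𝕜) := by
  rw [z_coord]
  rw [sum_eq_single g]
  · simp
  · intro g' _ hg
    rw [if_neg, mul_zero]
    intro h
    exact hg (by simpa using h.symm)
  · intro h
    exact absurd (mem_univ _) h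

lemma z_diff (m m' : ℕ) (h : m ≠ m') (p : K m × K m) (g : G m') :
    (z 𝕜 ⟨m, p⟩ : ℕ → 𝕜) (enc ⟨m', g⟩) = 0 := by
  rw [z_coord]
  refine sum_eq_zero fun g' _ => ?_
  rw [if_neg, mul_zero]
  intro h'
  exact h (congrArg Sigma.fst h').symm

/-- the embedding of a block -/
def blk (m : ℕ) : K m × K m ↪ T := ⟨fun p => ⟨m, p⟩, fun p q h => by simpa using h⟩

open Classical in
lemma coord_sum (F : Finset T) (a : T → 𝕜) (m : ℕ) (g : G m) :
    ((∑ t ∈ F, a t • z 𝕜 t : L1 𝕜) : ℕ → 𝕜) (enc ⟨m, g⟩) =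
      ((1 / Fintype.card (G m) : ℝ) : 𝕜) *
        fn (fun p => if (⟨m, p⟩ : T) ∈ F then a ⟨m, p⟩ else 0) g := by
  have h1 : ((∑ t ∈ F, a t • z 𝕜 t : L1 𝕜) : ℕ → 𝕜) (enc ⟨m, g⟩) =
      ∑ t ∈ F, a t * (z 𝕜 t : ℕ → 𝕜) (enc ⟨m, g⟩) := by
    rw [lp.coeFn_sum, Finset.sum_apply]
    rfl
  have h2 : ∑ t ∈ F, a t * (z 𝕜 t : ℕ → 𝕜) (enc ⟨m, g⟩) =
      ∑ t ∈ univ.map (blk m), if t ∈ F then a t * (z 𝕜 t : ℕ → 𝕜) (enc ⟨m, g⟩) else 0 := by
    rw [← sum_filter]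
    symm
    refine sum_subset ?_ ?_
    · intro t ht
      exact (Finset.mem_filter.1 ht).2
    · rintro ⟨m', p⟩ ht ht'
      have h4 : m' ≠ m := by
        rintro rfl
        exact ht' (Finset.mem_filter.2 ⟨Finset.mem_map.2 ⟨p, Finset.mem_univ _, rfl⟩, ht⟩)
      rw [z_diff _ _ h4, mul_zero]
  rw [h1, h2, sum_map]
  unfold fn
  rw [mul_sum]
  refine sum_congr rfl fun p _ => ?_
  show (if (⟨m, p⟩ : T) ∈ F then a ⟨m, p⟩ * (z 𝕜 ⟨m, p⟩ : ℕ → 𝕜) (enc ⟨m, g⟩) else 0) = _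
  by_cases h : (⟨m, p⟩ : T) ∈ F
  · simp only [if_pos h]
    rw [z_same, div_eq_mul_one_div, RCLike.ofReal_mul]
    ring
  · simp only [if_neg h, mul_zero]

lemma norm_hasSum (f : L1 𝕜) : HasSum (fun k => ‖f k‖) ‖f‖ := by
  have h := lp.hasSum_norm (p := 1) (by simp) f
  simpa using h

lemma norm_block (f : L1 𝕜) : HasSum (fun m => ∑ g : G m, ‖f (enc ⟨m, g⟩)‖) ‖f‖ := by
  have h2 : HasSum (fun i : I => ‖f (enc i)‖) ‖f‖ := (Equiv.hasSum_iff enc).2 (norm_hasSum f)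
  exact h2.sigma fun m => hasSum_fintype _

/-- unconditionality -/
theorem uncond (F B : Finset T) (hB : B ⊆ F) (a : T → 𝕜) :
    ‖∑ t ∈ B, a t • z 𝕜 t‖ ≤ 4 * ‖∑ t ∈ F, a t • z 𝕜 t‖ := by
  classical
  refine hasSum_le (fun m => ?_) (norm_block (∑ t ∈ B, a t • z 𝕜 t))
    ((norm_block (∑ t ∈ F, a t • z 𝕜 t)).mul_left 4)
  simp_rw [coord_sum, norm_mul, ← mul_sum]
  have h := block_ineq (m := m) (fun p => if (⟨m, p⟩ : T) ∈ B then a ⟨m, p⟩ else 0)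
    (fun p => if (⟨m, p⟩ : T) ∈ F then a ⟨m, p⟩ else 0) (fun p => by
      by_cases h1 : (⟨m, p⟩ : T) ∈ B
      · rw [if_pos h1, if_pos (hB h1)]
      · rw [if_neg h1, norm_zero]
        exact norm_nonneg _)
  have h0 : 0 ≤ ‖((1 / Fintype.card (G m) : ℝ) : 𝕜)‖ := norm_nonneg _
  calc _ ≤ ‖((1 / Fintype.card (G m) : ℝ) : 𝕜)‖ *
        (4 * ∑ g : G m, ‖fn (fun p => if (⟨m, p⟩ : T) ∈ F then a ⟨m, p⟩ else 0) g‖) :=
        mul_le_mul_of_nonneg_left h h0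
    _ = _ := by ring

lemma card_pos (m : ℕ) : (0 : ℝ) < Fintype.card (G m) := by
  exact_mod_cast Fintype.card_pos

lemma z_ne (t : T) : z 𝕜 t ≠ 0 := by
  obtain ⟨m, p⟩ := t
  intro h
  have h1 := z_same (𝕜 := 𝕜) m p (fun _ => true, fun _ => true)
  rw [h] at h1
  have h2 : (chi p (fun _ => true, fun _ => true) : ℝ) = 1 := by simp [chi, sg]
  rw [h2] at h1
  have h3 : ((1 / Fintype.card (G m) : ℝ) : 𝕜) ≠ 0 := by
    rw [Ne, RCLike.ofReal_eq_zero]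
    exact (one_div_pos.2 (card_pos m)).ne'
  exact h3 h1.symm

/-- **Obstruction.** A bounded operator of `ℓ₁` which extends the partial sum projection onto the
positive part of the block `m` has norm at least `2 ^ (m / 2) / 2`. -/
theorem obstruction (m : ℕ) (P : L1 𝕜 →L[𝕜] L1 𝕜)
    (hP : ∀ p : K m × K m, P (z 𝕜 ⟨m, p⟩) = if Syl p.1 p.2 = 1 then z 𝕜 ⟨m, p⟩ else 0) :
    (2 : ℝ) ^ m ≤ 4 * ‖P‖ ^ 2 := by
  classical
  set N : ℝ := (Fintype.card (G m) : ℝ) with hN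
  have hN0 : 0 < N := card_pos m
  set R : ℝ := √(((2 : ℝ) ^ m) ^ 3) with hR
  have hR0 : 0 ≤ R := Real.sqrt_nonneg _
  have hR2 : R ^ 2 = ((2 : ℝ) ^ m) ^ 3 := Real.sq_sqrt (by positivity)
  let D : G m → L1 𝕜 := fun g => lp.single 1 (enc ⟨m, g⟩) (1 : 𝕜)
  have hD : ∀ g, ‖P (D g)‖ ≤ ‖P‖ := by
    intro g
    refine (P.le_opNorm _).trans (le_of_eq ?_)
    have : ‖D g‖ = 1 := by
      show ‖(lp.single 1 (enc ⟨m, g⟩) (1 : 𝕜) : L1 𝕜)‖ = 1
      rw [lp.norm_single (by norm_num)]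
      simp
    rw [this, mul_one]
  have hz : ∀ p : K m × K m, z 𝕜 ⟨m, p⟩ = ∑ g : G m, ((chi p g / N : ℝ) : 𝕜) • D g :=
    fun p => rfl
  have hPz : ∀ (p : K m × K m) (g' : G m), (P (z 𝕜 ⟨m, p⟩) : ℕ → 𝕜) (enc ⟨m, g'⟩) =
      ∑ g : G m, ((chi p g / N : ℝ) : 𝕜) * (P (D g) : ℕ → 𝕜) (enc ⟨m, g'⟩) := by
    intro p g'
    rw [hz, map_sum, lp.coeFn_sum, Finset.sum_apply]
    refine sum_congr rfl fun g _ => ?_
    rw [map_smul]
    rfl
  set A : 𝕜 := ∑ p : K m × K m, ((Syl p.1 p.2 : ℝ) : 𝕜) *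
    ∑ g' : G m, ((chi p g' : ℝ) : 𝕜) * (P (z 𝕜 ⟨m, p⟩) : ℕ → 𝕜) (enc ⟨m, g'⟩) with hA
  -- first evaluation
  have e1 : A = ((∑ s : K m, ∑ t : K m, if Syl s t = 1 then Syl s t else 0 : ℝ) : 𝕜) := by
    rw [hA, ← Fintype.sum_prod_type' (f := fun s t : K m => if Syl s t = 1 then Syl s t else 0)]
    push_cast
    refine sum_congr rfl fun p _ => ?_
    rw [hP]
    split_ifs with h
    · have h2 : ∑ g' : G m, ((chi p g' : ℝ) : 𝕜) * (z 𝕜 ⟨m, p⟩ : ℕ → 𝕜) (enc ⟨m, g'⟩) = 1 := by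
        have h3 : ∀ g' : G m, ((chi p g' : ℝ) : 𝕜) * (z 𝕜 ⟨m, p⟩ : ℕ → 𝕜) (enc ⟨m, g'⟩) =
            ((1 / N : ℝ) : 𝕜) := by
          intro g'
          rw [z_same, ← RCLike.ofReal_mul, mul_div_assoc', chi_sq]
        simp_rw [h3]
        rw [sum_const, card_univ, nsmul_eq_mul]
        have h4 : ((Fintype.card (G m) : ℕ) : 𝕜) = ((N : ℝ) : 𝕜) := by
          rw [hN, RCLike.ofReal_natCast]
        rw [h4, ← RCLike.ofReal_mul, mul_one_div_cancel hN0.ne', RCLike.ofReal_one]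
      rw [h2, mul_one]
    · simp
  -- second evaluation
  have e2 : A = ∑ g : G m, ∑ g' : G m,
      ((1 / N * ∑ p : K m × K m, Syl p.1 p.2 * (chi p g * chi p g') : ℝ) : 𝕜) *
        (P (D g) : ℕ → 𝕜) (enc ⟨m, g'⟩) := by
    rw [hA]
    simp_rw [hPz, mul_sum]
    let X : K m × K m → G m → G m → 𝕜 := fun p g' g => ((Syl p.1 p.2 : ℝ) : 𝕜) *
      (((chi p g' : ℝ) : 𝕜) * (((chi p g / N : ℝ) : 𝕜) * (P (D g) : ℕ → 𝕜) (enc ⟨m, g'⟩)))
    calc ∑ p, ∑ g', ∑ g, X p g' g = ∑ p, ∑ g, ∑ g', X p g' g := sum_congr rfl fun p _ => sum_comm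
      _ = ∑ g, ∑ p, ∑ g', X p g' g := sum_comm
      _ = ∑ g, ∑ g', ∑ p, X p g' g := sum_congr rfl fun g _ => sum_comm
      _ = _ := by
          refine sum_congr rfl fun g _ => sum_congr rfl fun g' _ => ?_
          rw [RCLike.ofReal_sum, sum_mul]
          refine sum_congr rfl fun p _ => ?_
          simp only [X]
          rw [div_eq_mul_one_div (chi p g) N]
          simp only [RCLike.ofReal_mul]
          ring
  -- estimate
  have e3 : ‖A‖ ≤ R * ‖P‖ := by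
    rw [e2]
    have h1 : ∀ g : G m, ‖∑ g' : G m,
        ((1 / N * ∑ p : K m × K m, Syl p.1 p.2 * (chi p g * chi p g') : ℝ) : 𝕜) *
          (P (D g) : ℕ → 𝕜) (enc ⟨m, g'⟩)‖ ≤ 1 / N * R * ‖P‖ := by
      intro g
      refine (norm_sum_le _ _).trans ?_
      have h2 : ∀ g' : G m, ‖((1 / N * ∑ p : K m × K m, Syl p.1 p.2 * (chi p g * chi p g') : ℝ) : 𝕜) *
          (P (D g) : ℕ → 𝕜) (enc ⟨m, g'⟩)‖ ≤ 1 / N * R * ‖(P (D g) : ℕ → 𝕜) (enc ⟨m, g'⟩)‖ := by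
        intro g'
        rw [norm_mul, RCLike.norm_ofReal, abs_mul, abs_of_pos (one_div_pos.2 hN0)]
        have h3 : |∑ p : K m × K m, Syl p.1 p.2 * (chi p g * chi p g')| ≤ R := by
          apply Real.abs_le_sqrt
          exact kernel_bound g g'
        gcongr
      refine (sum_le_sum fun g' _ => h2 g').trans ?_
      rw [← mul_sum]
      have h4 : ∑ g' : G m, ‖(P (D g) : ℕ → 𝕜) (enc ⟨m, g'⟩)‖ ≤ ‖P‖ := by
        refine le_trans ?_ (hD g)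
        have h5 := norm_block (P (D g))
        have h6 := sum_le_hasSum {m} (fun i _ => sum_nonneg fun _ _ => norm_nonneg _) h5
        simpa using h6
      have h7 : 0 ≤ 1 / N * R := by positivity
      exact mul_le_mul_of_nonneg_left h4 h7
    refine (norm_sum_le _ _).trans ((sum_le_sum fun g _ => h1 g).trans (le_of_eq ?_))
    rw [sum_const, card_univ, nsmul_eq_mul, ← hN]
    field_simp
  have e4 : ((2 : ℝ) ^ m) ^ 2 / 2 ≤ R * ‖P‖ := by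
    refine le_trans Syl_card (le_trans ?_ e3)
    rw [e1, RCLike.norm_ofReal]
    exact le_abs_self _
  have h8 : (0 : ℝ) < 2 ^ m := by positivity
  have h9 : (((2 : ℝ) ^ m) ^ 2 / 2) ^ 2 ≤ (R * ‖P‖) ^ 2 := by gcongr
  rw [mul_pow, hR2] at h9
  have h10 : ((2 : ℝ) ^ m) ^ 3 * 2 ^ m ≤ ((2 : ℝ) ^ m) ^ 3 * (4 * ‖P‖ ^ 2) := by nlinarith
  exact le_of_mul_le_mul_left h10 (by positivity)

end

end Pool.Agent.J4.H73.BE
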