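import Mathlib
import Pool.Agent.J4.H73.BE.Glob

set_option autoImplicit false
set_option linter.unusedSectionVars false

open Finset Filter Topology
open scoped ENNReal BoundedContinuousFunction

namespace Pool.Agent.J4.H73.BE

/-- The sequence `y` is a basic sequence: it is a (Schauder) basis of its closed linear span. -/
def IsBasic (𝕜 : Type*) [RCLike 𝕜] {E : Type*} [NormedAddCommGroup E] [NormedSpace 𝕜 E]
    (y : ℕ → E) : Prop :=
  ∀ x ∈ closure (Submodule.span 𝕜 (Set.range y) : Set E), ∃! a : ℕ → 𝕜,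
    Tendsto (fun n => ∑ k ∈ Finset.range n, a k • y k) atTop (𝓝 x)

section
variable {𝕜 : Type*} [RCLike 𝕜] {E : Type*} [NormedAddCommGroup E] [NormedSpace 𝕜 E]
  [CompleteSpace E]

/-- the usual criterion -/
theorem isBasic_of {y : ℕ → E} (h0 : ∀ k, y k ≠ 0) (C : ℝ)
    (hC : ∀ (a : ℕ → 𝕜) (m n : ℕ), m ≤ n →
      ‖∑ k ∈ Finset.range m, a k • y k‖ ≤ C * ‖∑ k ∈ Finset.range n, a k • y k‖) :
    IsBasic 𝕜 y := by
  have hC0 : 0 ≤ C := by
    have h := hC (Pi.single 0 1) 1 1 le_rfl
    have h1 : ∑ k ∈ Finset.range 1, (Pi.single 0 1 : ℕ → 𝕜) k • y k = y 0 := by simp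
    rw [h1] at h
    have h2 : 0 < ‖y 0‖ := norm_pos_iff.2 (h0 0)
    by_contra hc
    nlinarith
  have hlow : ∀ s : Zsub (𝕜 := 𝕜) y, ‖s‖ ≤ C * ‖Lmap y s‖ := by
    intro s
    obtain ⟨a, ha⟩ := Zsub_eq_sum y s
    have h1 := (Lmap_spec y s).norm.const_mul C
    have h2 : ∀ m, ‖s.1 m‖ ≤ C * ‖Lmap y s‖ := by
      intro m
      refine ge_of_tendsto h1 ?_
      filter_upwards [eventually_ge_atTop m] with n hn
      rw [ha m, ha n]
      exact hC a m n hn
    exact (BoundedContinuousFunction.norm_le (by positivity)).2 h2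
  have hanti : AntilipschitzWith (Real.toNNReal C) (Lmap (𝕜 := 𝕜) y) := by
    refine AddMonoidHomClass.antilipschitz_of_bound _ fun s => ?_
    rw [Real.coe_toNNReal C hC0]
    exact hlow s
  have hclosed : IsClosed (Set.range (Lmap (𝕜 := 𝕜) y)) :=
    hanti.isClosed_range (Lmap (𝕜 := 𝕜) y).uniformContinuous
  have hy : ∀ k, y k ∈ Set.range (Lmap (𝕜 := 𝕜) y) := by
    intro k
    classical
    let a : ℕ → 𝕜 := Pi.single k 1
    have hsum : ∀ n, ∑ j ∈ Finset.range n, a j • y j = if k < n then y k else 0 := by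
      intro n
      have : ∀ j ∈ Finset.range n, a j • y j = if k = j then y k else 0 := by
        intro j _
        by_cases h : k = j
        · subst h; simp [a]
        · simp [a, h, Ne.symm h]
      rw [Finset.sum_congr rfl this, Finset.sum_ite_eq]
      simp
    have hlim : Tendsto (fun n => ∑ j ∈ Finset.range n, a j • y j) atTop (𝓝 (y k)) := by
      refine tendsto_const_nhds.congr' ?_
      filter_upwards [eventually_gt_atTop k] with n hn
      rw [hsum, if_pos hn]
    exact ⟨mkZ y a (y k) hlim, Lmap_mkZ y a (y k) hlim⟩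
  have hspan : closure (Submodule.span 𝕜 (Set.range y) : Set E) ⊆
      Set.range (Lmap (𝕜 := 𝕜) y) := by
    refine closure_minimal ?_ hclosed
    have h1 : Submodule.span 𝕜 (Set.range y) ≤ (Lmap (𝕜 := 𝕜) y).range := by
      rw [Submodule.span_le]
      rintro _ ⟨k, rfl⟩
      obtain ⟨s, hs⟩ := hy k
      exact ⟨s, hs⟩
    intro x hx
    obtain ⟨s, hs⟩ := h1 hx
    exact ⟨s, hs⟩
  intro x hx
  obtain ⟨s, hs⟩ := hspan hx
  obtain ⟨a, ha⟩ := Zsub_eq_sum y s
  have hlim : Tendsto (fun n => ∑ k ∈ Finset.range n, a k • y k) atTop (𝓝 x) := by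
    rw [← hs]
    exact (Lmap_spec y s).congr fun n => ha n
  refine ⟨a, hlim, fun b hb => ?_⟩
  have h1 := Lmap_mkZ y a x hlim
  have h2 := Lmap_mkZ y b x hb
  have h3 : mkZ y a x hlim = mkZ y b x hb := hanti.injective (h1.trans h2.symm)
  have h4 : ∀ n, ∑ k ∈ Finset.range n, a k • y k = ∑ k ∈ Finset.range n, b k • y k := by
    intro n
    rw [← mkZ_apply y a x hlim, ← mkZ_apply y b x hb, h3]
  funext n
  have h5 := h4 (n + 1)
  rw [Finset.sum_range_succ, Finset.sum_range_succ, h4 n] at h5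
  have h6 := add_left_cancel h5
  exact (smul_left_injective 𝕜 (h0 n) h6).symm

end

/-- enumeration of a set with a rank function with finite levels -/
theorem exists_enum {T : Type*} [Countable T] [Infinite T] (r : T → ℕ)
    (hr : ∀ n, {t | r t ≤ n}.Finite) : ∃ σ : ℕ ≃ T, Monotone fun k => r (σ k) := by
  obtain ⟨e, he⟩ := exists_injective_nat T
  have hM : ∀ n, ∃ M : ℕ, ∀ t, r t ≤ n → e t < M := by
    intro n
    obtain ⟨M, hM⟩ := ((hr n).image e).bddAbove
    exact ⟨M + 1, fun t ht => Nat.lt_succ_of_le (hM ⟨t, ht, rfl⟩)⟩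
  choose M hM using hM
  let c : T → ℕ := fun t => e t + ∑ k ∈ Finset.range (r t), M k
  have hc : ∀ t t', r t < r t' → c t < c t' := by
    intro t t' h
    have h1 : ∑ k ∈ Finset.range (r t + 1), M k ≤ ∑ k ∈ Finset.range (r t'), M k :=
      Finset.sum_le_sum_of_subset (Finset.range_mono h)
    rw [Finset.sum_range_succ] at h1
    have h2 := hM (r t) t le_rfl
    show e t + _ < e t' + _
    omega
  have hinj : Function.Injective c := by
    intro t t' h
    have h1 : r t = r t' := by
      rcases lt_trichotomy (r t) (r t') with h2 | h2 | h2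
      · exact absurd h (hc _ _ h2).ne
      · exact h2
      · exact absurd h (hc _ _ h2).ne'
    apply he
    have h3 : e t + ∑ k ∈ Finset.range (r t), M k = e t' + ∑ k ∈ Finset.range (r t'), M k := h
    rw [h1] at h3
    omega
  have : Infinite (Set.range c) := Set.infinite_coe_iff.2 (Set.infinite_range_of_injective hinj)
  let ψ := Nat.Subtype.orderIsoOfNat (Set.range c)
  let σ : ℕ ≃ T := ψ.toEquiv.trans (Equiv.ofInjective c hinj).symm
  have hσ : ∀ k, c (σ k) = ψ k := by
    intro k
    have h : (Equiv.ofInjective c hinj) (σ k) = ψ k := by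
      simp [σ]
    rw [← h]
    rfl
  refine ⟨σ, fun i j hij => ?_⟩
  by_contra h
  have h1 : r (σ j) < r (σ i) := not_le.1 h
  have h2 := hc _ _ h1
  rw [hσ, hσ] at h2
  have h3 : ψ i ≤ ψ j := ψ.monotone hij
  exact absurd h2 (not_lt.2 h3)

section
variable (𝕜 : Type) [RCLike 𝕜]

open Classical in
/-- the rank of an index: the positive part of block `m` has rank `2 m`, the negative part `2m+1` -/
noncomputable def rk (t : T) : ℕ := 2 * t.1 + if Syl t.2.1 t.2.2 = 1 then 0 else 1

lemma rk_finite (n : ℕ) : {t : T | rk t ≤ n}.Finite := by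
  have h : {t : T | rk t ≤ n} ⊆ ⋃ m ∈ Finset.range (n + 1), Set.range (blk m) := by
    rintro ⟨m, p⟩ ht
    have ht1 : rk ⟨m, p⟩ ≤ n := ht
    unfold rk at ht1
    simp only at ht1
    simp only [Set.mem_iUnion]
    refine ⟨m, ?_, p, rfl⟩
    rw [Finset.mem_range]
    omega
  refine Set.Finite.subset ?_ h
  exact Set.Finite.biUnion (Finset.finite_toSet _) fun m _ => Set.finite_range _

/-- the enumeration -/
noncomputable def en : ℕ ≃ T := (exists_enum rk rk_finite).choose

lemma en_mono : Monotone fun k => rk (en k) := (exists_enum rk rk_finite).choose_spec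

/-- the basic sequence -/
noncomputable def yseq (k : ℕ) : L1 𝕜 := z 𝕜 (en k)

theorem yseq_basic (π : Equiv.Perm ℕ) : IsBasic 𝕜 (fun k => yseq 𝕜 (π k)) := by
  classical
  refine isBasic_of (fun k => z_ne _) 4 fun a m n hmn => ?_
  have key : ∀ n : ℕ, ∑ k ∈ Finset.range n, a k • yseq 𝕜 (π k) =
      ∑ t ∈ (Finset.range n).map (π.trans en).toEmbedding, (fun t => a ((π.trans en).symm t)) t •
        z 𝕜 t := by
    intro n
    rw [Finset.sum_map]
    refine Finset.sum_congr rfl fun k _ => ?_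
    simp [yseq]
  rw [key, key]
  exact uncond _ _ (Finset.map_subset_map.2 (Finset.range_mono hmn)) _

theorem yseq_not_ext {u : ℕ → L1 𝕜} (hu : IsBasis 𝕜 u) {p : ℕ → ℕ} (hp : StrictMono p)
    (h : ∀ n, u (p n) = yseq 𝕜 n) : False := by
  classical
  obtain ⟨C, hC⟩ := exists_proj hu
  -- the bound
  have key : ∀ m : ℕ, (2 : ℝ) ^ m ≤ 4 * C ^ 2 := by
    intro m
    have hex : ∃ k, 2 * m < rk (en k) := by
      refine ⟨en.symm ⟨m + 1, (fun _ => true, fun _ => true)⟩, ?_⟩
      rw [Equiv.apply_symm_apply]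
      unfold rk
      simp only
      omega
    obtain ⟨P, hPn, hP⟩ := hC (p (Nat.find hex))
    have hPt : ∀ q : K m × K m, P (z 𝕜 ⟨m, q⟩) = if Syl q.1 q.2 = 1 then z 𝕜 ⟨m, q⟩ else 0 := by
      intro q
      obtain ⟨k, hk⟩ := en.surjective ⟨m, q⟩
      have h1 : z 𝕜 ⟨m, q⟩ = u (p k) := by rw [h k, yseq, hk]
      rw [h1, hP]
      have h2 : p k < p (Nat.find hex) ↔ Syl q.1 q.2 = 1 := by
        rw [hp.lt_iff_lt, Nat.lt_find_iff]
        have h3 : rk (en k) = 2 * m + if Syl q.1 q.2 = 1 then 0 else 1 := by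
          rw [hk]
          unfold rk
          congr
        constructor
        · intro h4
          by_contra h5
          have h6 := h4 k le_rfl
          rw [h3, if_neg h5] at h6
          omega
        · intro h4 j hj
          have h5 : rk (en j) ≤ rk (en k) := en_mono hj
          rw [h3, if_pos h4] at h5
          omega
      by_cases h4 : Syl q.1 q.2 = 1
      · rw [if_pos h4, if_pos (h2.2 h4)]
      · rw [if_neg h4, if_neg (fun h5 => h4 (h2.1 h5))]
    refine (obstruction m P hPt).trans ?_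
    have h0 : 0 ≤ ‖P‖ := norm_nonneg _
    gcongr
  obtain ⟨m, hm⟩ := pow_unbounded_of_one_lt (4 * C ^ 2) (one_lt_two : (1 : ℝ) < 2)
  exact absurd (key m) (not_le.2 hm)

/-- the unit vector basis of `ℓ₁` -/
theorem unit_basis : IsBasis 𝕜 (fun k => (lp.single 1 k (1 : 𝕜) : L1 𝕜)) := by
  intro x
  have h1 : HasSum (fun k => (lp.single 1 k (x k) : L1 𝕜)) x := lp.hasSum_single (by simp) x
  have h2 : ∀ (a : ℕ → 𝕜) k, a k • (lp.single 1 k (1 : 𝕜) : L1 𝕜) = lp.single 1 k (a k) := by
    intro a k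
    rw [← lp.single_smul, smul_eq_mul, mul_one]
  refine ⟨fun k => x k, ?_, fun b hb => ?_⟩
  · have h3 := h1.tendsto_sum_nat
    refine h3.congr fun n => Finset.sum_congr rfl fun k _ => ?_
    rw [h2 (fun k => x k) k]
  · funext j
    have h3 : Tendsto (fun n => ((∑ k ∈ Finset.range n, b k • (lp.single 1 k (1 : 𝕜) : L1 𝕜) :
        L1 𝕜) : ℕ → 𝕜) j) atTop (𝓝 (x j)) := by
      have hc : Continuous fun f : L1 𝕜 => (f : ℕ → 𝕜) j := by
        refine continuous_iff_continuousAt.2 fun f => ?_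
        have : LipschitzWith 1 fun f : L1 𝕜 => (f : ℕ → 𝕜) j := by
          refine LipschitzWith.of_dist_le_mul fun f g => ?_
          rw [dist_eq_norm, dist_eq_norm, NNReal.coe_one, one_mul]
          exact lp.norm_apply_le_norm (by norm_num) (f - g) j
        exact this.continuous.continuousAt
      exact (hc.tendsto x).comp hb
    have h4 : Tendsto (fun _ : ℕ => b j) atTop (𝓝 (x j)) := by
      refine h3.congr' ?_
      filter_upwards [eventually_gt_atTop j] with n hn
      rw [lp.coeFn_sum, Finset.sum_apply, Finset.sum_eq_single j]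
      · rw [h2, lp.single_apply_self]
      · intro k _ hk
        rw [h2, lp.single_apply_ne _ _ _ (Ne.symm hk)]
      · intro hj
        exact absurd (Finset.mem_range.2 hn) hj
    exact tendsto_nhds_unique tendsto_const_nhds h4

end

end Pool.Agent.J4.H73.BE
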